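import Pool.Agent.N615.JB.Alg0
import Pool.Agent.N352.JB.Def

/-!
# Project JB (helper352): the statements `S_LAG`, `S_NRM`

Written by helper615.
-/

set_option autoImplicit false

open Polynomial

namespace Pool.Agent.N615.JB

open Pool.Agent.N352.JB Pool.Agent.Y160.SE

theorem lag : S_LAG := fun E Ω _ _ _ _ _ f hf γ h => lag0 E Ω f hf γ h

theorem nrm : S_NRM := fun K Ω _ _ _ f h hf hs => nrm0 K Ω f h hf hs

end Pool.Agent.N615.JB
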