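import Pool.Agent.N352.JB.Def

/-!
# Project JB (helper352): square Kummer classes, multiplication by 2, invariant torsion

Written by helper615.
-/

set_option autoImplicit false

open Polynomial IsDedekindDomain
open scoped Classical

namespace Pool.Agent.N615.JB

open Pool.Agent.N352.JB Pool.Agent.Y160.SE
open Pool.Agent.TH115.GD (incl rs ak)

lemma rs_ak {K Ω : Type} [Field K] [Field Ω] [Algebra K Ω] (σ : Ω ≃ₐ[K] Ω) :
    (rs K σ : Ω →ₐ[K] Ω) = ak σ := AlgHom.ext fun _ => rfl

lemma irr_map {K : Type} [Field K] {f : K[X]} (h : Irreducible f) :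
    Irreducible (f.map (algebraMap K K)) := by
  rw [Algebra.algebraMap_self, Polynomial.map_id]
  exact h

theorem tor : S_TOR := by
  intro K Ω _ _ _ _ _ f hg hirr x hx hf
  exact no_tor (F := K) hyps hg (irr_map hirr) hx fun σ => by
    rw [rs_ak]
    exact hf σ

theorem cob : S_COB := by
  intro K Ω _ _ _ _ _ f hg hirr c hmul hc h b hb s hs
  obtain ⟨a, ha⟩ := exists_rt hg Ω
  have h0 : aeval a f = 0 := ha
  have hsq : aeval a h = aeval a s ^ 2 := by
    obtain ⟨q, hq⟩ := hs
    have h1 := congrArg (aeval a) hq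
    rw [map_mul, h0, zero_mul, map_sub, map_pow, sub_eq_zero] at h1
    exact h1
  obtain ⟨hb0, hb2⟩ := hb.val a ha
  rw [hsq] at hb2
  obtain ⟨R, hR, hcR⟩ := cob1 (K := K) (F := K) hyps hg (irr_map hirr) ha (c := c)
    (fun σ τ => by rw [rs_ak]; exact hmul σ τ) hc (fun σ hσ => by
      have h1 := hb.gal σ a ha
      rw [hσ] at h1
      have h2 : σ (aeval a s) = aeval a s := by
        have := Polynomial.aeval_algHom_apply (σ : Ω →ₐ[K] Ω) a s
        have h3 : (σ : Ω →ₐ[K] Ω) a = a := hσ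
        rw [h3] at this
        exact this.symm
      have h3 : σ (b a) = b a := by
        rcases sq_eq_sq_iff_eq_or_eq_neg.1 hb2 with h4 | h4
        · rw [h4, h2]
        · rw [h4, map_neg, h2]
      rw [h3] at h1
      exact (mul_eq_right₀ hb0).1 h1.symm)
  exact ⟨R, hR, fun σ => by rw [hcR σ, rs_ak]⟩

theorem dbl : S_DBL := by
  intro K Ω _ _ _ f hg
  have h2 : ∀ x : Jac 2 f Ω, pe hg Ω (1 - X) x = 2 • x := by
    intro x
    have h1 := pe_nrm hyps hg x
    unfold nrm at h1
    rw [Finset.sum_range_succ, Finset.sum_range_one, pow_zero, pow_one, pe_add, pe_one] at h1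
    have h3 : pe hg Ω X x = -x := by
      rw [add_comm] at h1
      exact eq_neg_of_add_eq_zero_left h1
    rw [pe_sub, pe_one, h3, two_nsmul, sub_neg_eq_add]
  refine ⟨fun x => ?_, h2, ?_⟩
  · unfold Tor
    rw [h2]
  · intro _ x
    obtain ⟨y, hy⟩ := lam_surj hyps hg x
    exact ⟨y, by rw [← h2, hy]⟩

end Pool.Agent.N615.JB
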