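import Pool.Agent.N352.JB.Def
import Pool.Agent.Y713.SE.Coh

/-!
# Project JB (helper352): the Galois action on the classes is locally constant

Written by helper615.
-/

set_option autoImplicit false

open Polynomial IsDedekindDomain
open scoped Classical

namespace Pool.Agent.N615.JB

open Pool.Agent.N352.JB Pool.Agent.Y160.SE
open Pool.Agent.TH115.GD (incl rs ak)
open Pool.Agent.Y713.SE (locConst_apply)

section

variable {K Ω : Type} [Field K] [Field Ω] [Algebra K Ω] [IsGalois K Ω] {f : K[X]}

lemma map_lc (g : Polynomial Ω) :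
    IsLocallyConstant (fun σ : Ω ≃ₐ[K] Ω => g.map ((ak σ : Ω →ₐ[K] Ω) : Ω →+* Ω)) := by
  induction g using Polynomial.induction_on' with
  | add p q hp hq =>
    have := hp.comp₂ hq (fun a b => a + b)
    convert this using 2
    rw [Polynomial.map_add]
  | monomial k r =>
    have := (locConst_apply (K := K) r).comp (fun a => monomial k a)
    convert this using 2
    simp [ak]

lemma cm_lc (a : CR 2 (f.map (algebraMap K Ω))) :
    IsLocallyConstant (fun σ : Ω ≃ₐ[K] Ω => cm 2 f (ak σ) a) := by
  obtain ⟨p, rfl⟩ := cr_mem a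
  induction p using Polynomial.induction_on' with
  | add p q hp hq =>
    have := hp.comp₂ hq (fun a b => a + b)
    convert this using 2
    rw [map_add, map_add]
  | monomial k r =>
    have := (map_lc (K := K) r).comp
      (fun q => xp 2 (f.map (algebraMap K Ω)) q * yy 2 (f.map (algebraMap K Ω)) ^ k)
    convert this using 2
    rename_i σ
    have e : AdjoinRoot.mk (X ^ 2 - C (f.map (algebraMap K Ω)) : Polynomial (Polynomial Ω))
        (monomial k r) = xp 2 (f.map (algebraMap K Ω)) r * yy 2 (f.map (algebraMap K Ω)) ^ k := by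
      rw [← C_mul_X_pow_eq_monomial, map_mul, map_pow]
      rfl
    rw [e]
    simp [cm]

lemma ideal_lc [IsNoetherianRing (CR 2 (f.map (algebraMap K Ω)))]
    (I : Ideal (CR 2 (f.map (algebraMap K Ω)))) :
    IsLocallyConstant (fun σ : Ω ≃ₐ[K] Ω => I.map (cm 2 f (ak σ))) := by
  obtain ⟨s, rfl⟩ : ∃ s : Finset (CR 2 (f.map (algebraMap K Ω))), Ideal.span (s : Set _) = I :=
    (isNoetherianRing_iff_ideal_fg _).1 inferInstance I
  induction s using Finset.induction_on with
  | empty =>
    convert IsLocallyConstant.const (⊥ : Ideal (CR 2 (f.map (algebraMap K Ω)))) using 2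
    rw [Finset.coe_empty, Ideal.span_empty, Ideal.map_bot]
    rfl
  | insert a s ha ih =>
    have h1 := (cm_lc (K := K) a).comp (fun b => Ideal.span {b})
    have h2 := h1.comp₂ ih (fun a b => a ⊔ b)
    convert h2 using 2
    rw [Finset.coe_insert, Ideal.span_insert]
    rw [Ideal.map_sup, Ideal.map_span, Set.image_singleton]
    rfl

end

theorem lc : S_LC := by
  intro K Ω _ _ _ _ f hg x
  obtain ⟨I, hI, hx⟩ := exists_cl hyps hg x
  have := hyps.ring 2 Ω _ _ (hg.up Ω)
  have h1 := (ideal_lc (K := K) I).comp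
    (fun J => if h : ∃ y : Jac 2 f Ω, IsCl Ω J y then h.choose else 0)
  convert h1 using 2
  rename_i σ
  have h2 := cl_map hyps hg hx (ak σ)
  have h3 : ∃ y : Jac 2 f Ω, IsCl Ω (I.map (cm 2 f (ak σ))) y := ⟨_, h2⟩
  simp only [Function.comp_apply]
  rw [dif_pos h3]
  obtain ⟨a1, a2, a3⟩ := h2
  obtain ⟨b1, b2, b3⟩ := h3.choose_spec
  rw [a3, b3]

end Pool.Agent.N615.JB
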