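import Mathlib

/-!
# Project JB (helper352): Lagrange interpolation with Galois descent, the norm of `h(θ)`

Written by helper615.
-/

set_option autoImplicit false

open Polynomial

namespace Pool.Agent.N615.JB

/-- Lagrange interpolation and Galois descent. -/
theorem lag0 (E Ω : Type) [Field E] [Field Ω] [Algebra E Ω] [IsGalois E Ω] (f : E[X])
    (hf : f.Separable) (γ : Ω → Ω)
    (h : ∀ (τ : Ω ≃ₐ[E] Ω) (e : Ω), aeval e f = 0 → τ (γ e) = γ (τ e)) :
    ∃ s : E[X], ∀ e, aeval e f = 0 → aeval e s = γ e := by
  classical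
  have hf0 : f.map (algebraMap E Ω) ≠ 0 := (Polynomial.map_ne_zero_iff
    (algebraMap E Ω).injective).2 hf.ne_zero
  obtain ⟨R, hR⟩ : ∃ R : Finset Ω, R = (f.map (algebraMap E Ω)).roots.toFinset := ⟨_, rfl⟩
  have hRm : ∀ e, e ∈ R ↔ aeval e f = 0 := by
    intro e
    rw [hR, Multiset.mem_toFinset, mem_roots hf0, IsRoot.def, eval_map_algebraMap]
  obtain ⟨s₀, hs₀⟩ : ∃ s₀ : Polynomial Ω, s₀ = Lagrange.interpolate R id γ := ⟨_, rfl⟩
  have hinj : Set.InjOn (id : Ω → Ω) R := fun a _ b _ hab => hab
  have hdeg : s₀.degree < R.card := by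
    rw [hs₀]
    exact Lagrange.degree_interpolate_lt _ hinj
  have hev : ∀ e ∈ R, s₀.eval e = γ e := by
    intro e he
    rw [hs₀]
    exact Lagrange.eval_interpolate_at_node (v := id) γ hinj he
  have hfix : ∀ τ : Ω ≃ₐ[E] Ω, s₀.map (τ : Ω →+* Ω) = s₀ := by
    intro τ
    refine Polynomial.eq_of_degrees_lt_of_eval_finset_eq R ?_ hdeg ?_
    · rw [degree_map_eq_of_injective (RingHom.injective _)]
      exact hdeg
    · intro e he
      obtain ⟨e', rfl⟩ := τ.surjective e
      have he' : e' ∈ R := by
        rw [hRm] at he ⊢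
        have h1 : aeval (τ e') f = τ (aeval e' f) := Polynomial.aeval_algHom_apply (τ : Ω →ₐ[E] Ω) e' f
        rw [h1] at he
        exact (map_eq_zero τ).1 he
      have h2 : eval (τ e') (s₀.map (τ : Ω →+* Ω)) = τ (eval e' s₀) :=
        Polynomial.eval_map_apply (τ : Ω →+* Ω) e'
      rw [h2, hev e' he', hev _ he]
      exact h τ e' ((hRm e').1 he')
  have hl : s₀ ∈ lifts (algebraMap E Ω) := by
    rw [lifts_iff_coeff_lifts]
    intro n
    rw [InfiniteGalois.mem_range_algebraMap_iff_fixed]
    intro τ
    have h3 := congrArg (fun p => p.coeff n) (hfix τ)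
    simp only [coeff_map] at h3
    exact h3
  obtain ⟨s, hs⟩ := hl
  refine ⟨s, fun e he => ?_⟩
  have hs' : s.map (algebraMap E Ω) = s₀ := hs
  rw [← eval_map_algebraMap, hs', hev e ((hRm e).2 he)]

section nrm

/-- The determinant of a polynomial in a matrix. -/
lemma det_aeval {L : Type} [Field L] {n : Type} [Fintype n] [DecidableEq n] (A : Matrix n n L)
    (hA : A.charpoly.Splits) (h : L[X]) (hh : h.Splits) :
    (aeval A h).det = (A.charpoly.roots.map fun e => h.eval e).prod := by
  have hcard : A.charpoly.roots.card = Fintype.card n := by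
    rw [← hA.natDegree_eq_card_roots, Matrix.charpoly_natDegree_eq_dim]
  have hmul : ∀ a b : L[X], (aeval A a).det = (A.charpoly.roots.map fun e => a.eval e).prod →
      (aeval A b).det = (A.charpoly.roots.map fun e => b.eval e).prod →
      (aeval A (a * b)).det = (A.charpoly.roots.map fun e => (a * b).eval e).prod := by
    intro a b ha hb
    rw [map_mul, Matrix.det_mul, ha, hb, ← Multiset.prod_map_mul]
    simp only [eval_mul]
  have hC : ∀ c : L, (aeval A (C c)).det = (A.charpoly.roots.map fun e => (C c).eval e).prod := by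
    intro c
    simp only [eval_C, Multiset.map_const', Multiset.prod_replicate, hcard]
    rw [aeval_C, Matrix.algebraMap_eq_diagonal, Matrix.det_diagonal]
    simp
  have hX : ∀ μ : L, (aeval A (X - C μ)).det
      = (A.charpoly.roots.map fun e => (X - C μ).eval e).prod := by
    intro μ
    have h1 : aeval A (X - C μ) = -(Matrix.scalar n μ - A) := by
      rw [map_sub, aeval_X, aeval_C]
      rw [neg_sub]
      rfl
    have h2 : A.charpoly.eval μ = (A.charpoly.roots.map fun e => μ - e).prod := by
      conv_lhs => rw [hA.eq_prod_roots_of_monic A.charpoly_monic]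
      rw [eval_multiset_prod, Multiset.map_map]
      simp
    rw [h1, Matrix.det_neg, ← Matrix.eval_charpoly, h2, ← hcard]
    simp only [eval_sub, eval_X, eval_C]
    have h3 : ∀ s : Multiset L, (-1) ^ s.card * (s.map fun e => μ - e).prod
        = (s.map fun e => e - μ).prod := by
      intro s
      induction s using Multiset.induction_on with
      | empty => simp
      | cons a s ih =>
        rw [Multiset.card_cons, Multiset.map_cons, Multiset.map_cons, Multiset.prod_cons,
          Multiset.prod_cons, ← ih, pow_succ]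
        ring
    exact h3 _
  have hprod : ∀ s : Multiset L, (aeval A (s.map fun μ => X - C μ).prod).det
      = (A.charpoly.roots.map fun e => (s.map fun μ => X - C μ).prod.eval e).prod := by
    intro s
    induction s using Multiset.induction_on with
    | empty => simp
    | cons a s ih =>
      rw [Multiset.map_cons, Multiset.prod_cons]
      exact hmul _ _ (hX a) ih
  rw [hh.eq_prod_roots]
  exact hmul _ _ (hC _) (hprod _)

/-- The norm of the value of a polynomial as a product over the roots. -/
theorem nrm0 (K Ω : Type) [Field K] [Field Ω] [Algebra K Ω] (f h : K[X]) (hf : f.Monic)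
    (hs : (f.map (algebraMap K Ω)).Splits) :
    algebraMap K Ω (Algebra.norm K (AdjoinRoot.mk f h)) =
      ((f.map (algebraMap K Ω)).roots.map fun e => aeval e h).prod := by
  classical
  obtain ⟨L, _, _, _, _, _⟩ : ∃ (L : Type) (_ : Field L) (_ : Algebra Ω L) (_ : Algebra K L)
    (_ : IsScalarTower K Ω L), IsAlgClosed L :=
    ⟨AlgebraicClosure Ω, inferInstance, inferInstance, inferInstance, inferInstance, inferInstance⟩
  apply (algebraMap Ω L).injective
  obtain ⟨pb, hpb⟩ : ∃ pb : PowerBasis K (AdjoinRoot f), pb.gen = AdjoinRoot.root f :=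
    ⟨AdjoinRoot.powerBasis hf.ne_zero, AdjoinRoot.powerBasis_gen _⟩
  obtain ⟨A, hA⟩ : ∃ A, A = Algebra.leftMulMatrix pb.basis pb.gen := ⟨_, rfl⟩
  have hAc : A.charpoly = f := by
    rw [hA, charpoly_leftMulMatrix, hpb, AdjoinRoot.minpoly_root hf.ne_zero, hf.leadingCoeff]
    simp
  have h1 : Algebra.norm K (AdjoinRoot.mk f h) = (aeval A h).det := by
    rw [Algebra.norm_eq_matrix_det pb.basis, ← AdjoinRoot.aeval_eq, ← hpb, hA]
    rw [← Polynomial.aeval_algHom_apply]
  have h2 : algebraMap K L ((aeval A h).det)
      = (aeval ((algebraMap K L).mapMatrix A) (h.map (algebraMap K L))).det := by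
    rw [RingHom.map_det]
    congr 1
    apply Polynomial.map_aeval_eq_aeval_map
    ext x i j
    simp [Matrix.algebraMap_eq_diagonal, Matrix.diagonal_apply]
    split_ifs <;> simp
  have h3 : ((algebraMap K L).mapMatrix A).charpoly = f.map (algebraMap K L) := by
    rw [RingHom.mapMatrix_apply, Matrix.charpoly_map, hAc]
  have h4 := det_aeval ((algebraMap K L).mapMatrix A) (IsAlgClosed.splits _)
    (h.map (algebraMap K L)) (IsAlgClosed.splits _)
  rw [h3] at h4
  have h5 : algebraMap Ω L (algebraMap K Ω (Algebra.norm K (AdjoinRoot.mk f h)))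
      = algebraMap K L (Algebra.norm K (AdjoinRoot.mk f h)) :=
    (IsScalarTower.algebraMap_apply K Ω L _).symm
  rw [h5, h1, h2, h4]
  have h6 : (f.map (algebraMap K L)).roots = (f.map (algebraMap K Ω)).roots.map (algebraMap Ω L) := by
    rw [IsScalarTower.algebraMap_eq K Ω L, ← Polynomial.map_map]
    exact hs.roots_map (algebraMap Ω L)
  rw [h6, Multiset.map_map, map_multiset_prod, Multiset.map_map]
  congr 1
  refine Multiset.map_congr rfl fun e _ => ?_
  simp only [Function.comp_apply]
  rw [eval_map_algebraMap, aeval_algebraMap_apply]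

end nrm

end Pool.Agent.N615.JB
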